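import Mathlib

/-!
A set that is covered, for all large `n`, by polynomially many slabs of width `poly(n) e^{-n}`
has a closure of Hausdorff dimension at most `b - 1`.
-/

namespace Pool.Agent.FS.HyperbolicDim

open Real Filter Topology MeasureTheory Metric

open scoped ENNReal NNReal

lemma poly_exp (p : Polynomial ℝ) {ε : ℝ} (hε : 0 < ε) :
    Tendsto (fun n : ℕ => p.eval (n : ℝ) * exp (-(ε * n))) atTop (𝓝 0) := by
  have h := (Polynomial.tendsto_div_exp_atTop (p.comp (Polynomial.C ε⁻¹ * Polynomial.X))).comp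
    ((tendsto_natCast_atTop_atTop (R := ℝ)).const_mul_atTop hε)
  refine h.congr fun n => ?_
  simp only [Function.comp, Polynomial.eval_comp, Polynomial.eval_mul, Polynomial.eval_C,
    Polynomial.eval_X, exp_neg]
  rw [inv_mul_cancel_left₀ hε.ne', div_eq_mul_inv]

lemma haus_le {X : Type} [EMetricSpace X] [MeasurableSpace X] [BorelSpace X] (S : Set X) {d : ℝ}
    (hd : 0 ≤ d) (ρ : ℕ → ℝ) (hρ : Tendsto ρ atTop (𝓝 0))
    (H : ∀ᶠ n in atTop, 0 ≤ ρ n ∧ ∃ T : Finset (Set X),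
      (∀ s ∈ T, ediam s ≤ ENNReal.ofReal (ρ n)) ∧ (S ⊆ ⋃ s ∈ T, s) ∧
        (T.card : ℝ) * ρ n ^ d ≤ 1) : μH[d] S ≤ 1 := by
  obtain ⟨n₀, hn₀⟩ := eventually_atTop.1 H
  choose h0 T h1 h2 h3 using fun n => hn₀ (n + n₀) (Nat.le_add_left _ _)
  have hr : Tendsto (fun n => ENNReal.ofReal (ρ (n + n₀))) atTop (𝓝 0) := by
    have := ENNReal.tendsto_ofReal (hρ.comp (tendsto_add_atTop_nat n₀))
    rwa [ENNReal.ofReal_zero] at this
  refine (Measure.hausdorffMeasure_le_liminf_sum (ι := fun n => T n) d S _ hr (fun n s => s.1)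
    (Eventually.of_forall fun n s => h1 n s.1 s.2) (Eventually.of_forall fun n x hx => ?_)).trans
    (liminf_le_of_frequently_le' (Frequently.of_forall fun n => ?_))
  · obtain ⟨s, hs, hx⟩ := Set.mem_iUnion₂.1 (h2 n hx)
    exact Set.mem_iUnion.2 ⟨⟨s, hs⟩, hx⟩
  · refine (Finset.sum_le_card_nsmul _ _ (ENNReal.ofReal (ρ (n + n₀)) ^ d) fun s _ =>
      ENNReal.rpow_le_rpow (h1 n s.1 s.2) hd).trans ?_
    rw [Finset.card_univ, Fintype.card_coe, nsmul_eq_mul, ENNReal.ofReal_rpow_of_nonneg (h0 n) hd,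
      ← ENNReal.ofReal_natCast, ← ENNReal.ofReal_mul (Nat.cast_nonneg _)]
    exact ENNReal.ofReal_le_one.2 (h3 n)

lemma slab_cover {b : ℕ} (ℓ : (Fin b → ℝ) →ₗ[ℝ] ℝ) (x : Fin b → ℝ) {R B w μ δ : ℝ} (hδ : 0 < δ)
    (hw : 0 ≤ w) (hx : ‖x‖ ≤ B) (h : 1 ≤ μ * |ℓ x|) (hwδ : w * μ * (b * B) ≤ δ) (K : ℕ)
    (hK : R ≤ K * δ) :
    ∃ T : Finset (Set (Fin b → ℝ)), T.card ≤ (2 * K + 1) ^ (b - 1) ∧
      (∀ s ∈ T, ediam s ≤ ENNReal.ofReal ((b + 2) * δ)) ∧
      {t | ‖t‖ ≤ R ∧ |ℓ t| ≤ w} ⊆ ⋃ s ∈ T, s := by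
  classical
  have hx0 : 0 < |ℓ x| := abs_pos.2 fun e => by
    rw [e, abs_zero, mul_zero] at h
    linarith
  have h0 : 0 ≤ μ := nonneg_of_mul_nonneg_left (zero_le_one.trans h) hx0
  set a : Fin b → ℝ := fun i => ℓ fun j => if i = j then 1 else 0 with ha
  have e1 : ∀ t, ℓ t = ∑ i, t i * a i := fun t => LinearMap.pi_apply_eq_sum_univ ℓ t
  have hne : (Finset.univ : Finset (Fin b)).Nonempty := by
    by_contra hne
    rw [e1, Finset.not_nonempty_iff_eq_empty.1 hne, Finset.sum_empty, abs_zero] at hx0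
    exact lt_irrefl _ hx0
  obtain ⟨j, -, hj⟩ := Finset.exists_max_image Finset.univ (fun i => |a i|) hne
  have e2 : ∀ (t : Fin b → ℝ) (c : ℝ), (∀ i, |t i| ≤ c) → |∑ i, t i * a i| ≤ b * c * |a j| := by
    intro t c ht
    refine (Finset.abs_sum_le_sum_abs _ _).trans ((Finset.sum_le_card_nsmul _ _ (c * |a j|)
      fun i _ => ?_).trans (le_of_eq ?_))
    · rw [abs_mul]
      exact mul_le_mul (ht i) (hj i (Finset.mem_univ i)) (abs_nonneg _)
        ((abs_nonneg _).trans (ht i))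
    · rw [Finset.card_univ, Fintype.card_fin, nsmul_eq_mul, mul_assoc]
  have e3 : |ℓ x| ≤ b * B * |a j| := by
    rw [e1]
    exact e2 x B fun i => (norm_le_pi_norm x i).trans hx
  have e4 : 0 < |a j| := (abs_nonneg _).lt_of_ne fun e => by
    rw [← e, mul_zero] at e3
    linarith
  have e5 : w ≤ δ * |a j| := by
    have h1 := h.trans (mul_le_mul_of_nonneg_left e3 h0)
    have h2 := mul_le_mul_of_nonneg_left h1 hw
    have h3 := mul_le_mul_of_nonneg_right hwδ e4.le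
    linarith
  refine ⟨(Fintype.piFinset fun i => if i = j then ({0} : Finset ℤ) else
    Finset.Icc (-K : ℤ) K).image fun g => {t | |ℓ t| ≤ w ∧ ∀ i, i ≠ j → ⌊t i / δ⌋ = g i},
    Finset.card_image_le.trans (le_of_eq ?_), fun s hs => ?_, fun t ht => ?_⟩
  · rw [Fintype.card_piFinset, ← Finset.mul_prod_erase _ _ (Finset.mem_univ j), if_pos rfl,
      Finset.card_singleton, one_mul, Finset.prod_congr rfl (g := fun _ => 2 * K + 1),
      Finset.prod_const, Finset.card_erase_of_mem (Finset.mem_univ j), Finset.card_univ,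
      Fintype.card_fin]
    intro i hi
    rw [if_neg (Finset.ne_of_mem_erase hi), Int.card_Icc]
    omega
  · obtain ⟨g, -, rfl⟩ := Finset.mem_image.1 hs
    refine Metric.ediam_le_of_forall_dist_le fun t ht t' ht' => ?_
    have k1 : ∀ i, i ≠ j → |t i - t' i| ≤ δ := fun i hi => by
      have := Int.abs_sub_lt_one_of_floor_eq_floor ((ht.2 i hi).trans (ht'.2 i hi).symm)
      rw [← sub_div, abs_div, abs_of_pos hδ, div_lt_one hδ] at this
      exact this.le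
    refine (dist_pi_le_iff (by positivity)).2 fun i => ?_
    rw [Real.dist_eq]
    by_cases hi : i = j
    · subst hi
      have k2 := e2 (fun k => if k = i then 0 else t k - t' k) δ fun k => by
        split_ifs with hk
        · rw [abs_zero]
          exact hδ.le
        · exact k1 k hk
      have k3 : (t i - t' i) * a i = ℓ t - ℓ t' -
          ∑ k, (if k = i then 0 else t k - t' k) * a k := by
        rw [← map_sub, e1, ← Finset.sum_sub_distrib, Finset.sum_eq_single i]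
        · simp
        · intro k _ hk
          simp [hk]
        · simp
      have k4 : |t i - t' i| * |a i| ≤ (b + 2) * δ * |a i| := by
        rw [← abs_mul, k3]
        have k5 := abs_sub (ℓ t - ℓ t') (∑ k, (if k = i then 0 else t k - t' k) * a k)
        have k6 := abs_sub (ℓ t) (ℓ t')
        linarith [ht.1, ht'.1]
      exact le_of_mul_le_mul_right k4 e4
    · have : (0 : ℝ) ≤ b * δ := by positivity
      linarith [k1 i hi]
  · refine Set.mem_iUnion₂.2 ⟨_, Finset.mem_image.2 ⟨fun i => if i = j then 0 else ⌊t i / δ⌋,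
      Fintype.mem_piFinset.2 fun i => ?_, rfl⟩, ht.2, fun i hi => by simp [hi]⟩
    by_cases hi : i = j
    · simp [hi]
    · have k1 := abs_le.1 (((norm_le_pi_norm t i).trans ht.1).trans hK)
      simp only [if_neg hi, Finset.mem_Icc]
      constructor
      · rw [Int.le_floor, le_div_iff₀ hδ]
        push_cast
        linarith [k1.1]
      · have k2 := (Int.floor_le (t i / δ)).trans ((div_le_iff₀ hδ).2 k1.2)
        exact_mod_cast k2

lemma dim_le {b : ℕ} (S : Set (Fin b → ℝ)) {R B : ℝ} (hR : 0 ≤ R) (hB : 0 ≤ B)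
    (p q : Polynomial ℝ) {ι : Type} (ℓ : ι → (Fin b → ℝ) →ₗ[ℝ] ℝ)
    (H : ∀ᶠ n : ℕ in atTop, ∃ (P : Finset ι) (w μ : ℝ), (P.card : ℝ) ≤ p.eval (n : ℝ) ∧ 0 ≤ w ∧
      w * μ ≤ q.eval (n : ℝ) * exp (-n) ∧ 0 ≤ q.eval (n : ℝ) ∧
      (∀ i ∈ P, ∃ x, ‖x‖ ≤ B ∧ 1 ≤ μ * |ℓ i x|) ∧ S ⊆ ⋃ i ∈ P, {t | ‖t‖ ≤ R ∧ |ℓ i t| ≤ w}) :
    dimH (closure S) ≤ (b - 1 : ℕ) := by
  classical
  refine dimH_le fun d hd => ?_
  by_contra hlt
  have h1 : ((b - 1 : ℕ) : ℝ) < d := by
    have := not_le.1 hlt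
    rw [← ENNReal.coe_natCast, ENNReal.coe_lt_coe, ← NNReal.coe_lt_coe] at this
    exact_mod_cast this
  set Q : Polynomial ℝ := Polynomial.C (b + 2 : ℝ) * (q * Polynomial.C (b * B) + 1) with hQ
  have hQe : ∀ y : ℝ, Q.eval y = (b + 2) * (q.eval y * (b * B) + 1) := fun y => by simp [hQ]
  have h2 := (poly_exp (p * Polynomial.C ((2 * R + 3) ^ (b - 1)) * Q ^ ⌈(d : ℝ)⌉₊)
    (sub_pos.2 h1)).eventually_le_const one_pos
  have h3 := haus_le (closure S) d.coe_nonneg (fun n => Q.eval (n : ℝ) * exp (-(1 * n)))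
    (poly_exp Q one_pos) ((H.and h2).mono ?_)
  · rw [hd] at h3
    exact absurd h3 (by simp)
  rintro n ⟨⟨P, w, μ, a1, a2, a3, a4, a5, a6⟩, a7⟩
  have b0 : 0 ≤ q.eval (n : ℝ) * (b * B) := by positivity
  have b1 : 1 ≤ Q.eval (n : ℝ) := by
    rw [hQe]
    nlinarith [(Nat.cast_nonneg b : (0 : ℝ) ≤ b)]
  have b2 := exp_pos (-(n : ℝ))
  have b3 : 1 ≤ exp (n : ℝ) := one_le_exp (Nat.cast_nonneg n)
  have b4 : exp (n : ℝ) * exp (-(n : ℝ)) = 1 := by rw [← exp_add, add_neg_cancel, exp_zero]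
  rw [one_mul]
  refine ⟨by positivity, ?_⟩
  have b5 : ∀ i, ∃ T : Finset (Set (Fin b → ℝ)), i ∈ P →
      T.card ≤ (2 * ⌈R * exp (n : ℝ)⌉₊ + 1) ^ (b - 1) ∧
      (∀ s ∈ T, ediam s ≤ ENNReal.ofReal ((b + 2) * ((q.eval (n : ℝ) * (b * B) + 1) * exp (-n)))) ∧
      {t | ‖t‖ ≤ R ∧ |ℓ i t| ≤ w} ⊆ ⋃ s ∈ T, s := by
    intro i
    by_cases hi : i ∈ P
    · obtain ⟨x, hx, hx'⟩ := a5 i hi
      obtain ⟨T, hT⟩ := slab_cover (ℓ i) x (R := R)
        (δ := (q.eval (n : ℝ) * (b * B) + 1) * exp (-n)) (by positivity) a2 hx hx' (by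
          have := mul_le_mul_of_nonneg_right a3 (show (0 : ℝ) ≤ b * B by positivity)
          nlinarith) ⌈R * exp (n : ℝ)⌉₊ (by
          have c1 := mul_le_mul_of_nonneg_right (Nat.le_ceil (R * exp (n : ℝ))) b2.le
          rw [mul_assoc, b4, mul_one] at c1
          refine c1.trans (mul_le_mul_of_nonneg_left ?_ (Nat.cast_nonneg _))
          nlinarith)
      exact ⟨T, fun _ => hT⟩
    · exact ⟨∅, fun h => absurd h hi⟩
  choose T hT using b5
  refine ⟨P.biUnion T, fun s hs => ?_, ?_, ?_⟩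
  · obtain ⟨i, hi, hs⟩ := Finset.mem_biUnion.1 hs
    rw [hQe, mul_assoc]
    exact (hT i hi).2.1 s hs
  · have c1 : IsClosed (⋃ i ∈ P, {t : Fin b → ℝ | ‖t‖ ≤ R ∧ |ℓ i t| ≤ w}) :=
      isClosed_biUnion_finset fun i _ => (isClosed_le continuous_norm continuous_const).inter
        (isClosed_le (ℓ i).continuous_of_finiteDimensional.abs continuous_const)
    intro t ht
    obtain ⟨i, hi, ht⟩ := Set.mem_iUnion₂.1 (closure_minimal a6 c1 ht)
    obtain ⟨s, hs, ht⟩ := Set.mem_iUnion₂.1 ((hT i hi).2.2 ht)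
    exact Set.mem_iUnion₂.2 ⟨s, Finset.mem_biUnion.2 ⟨i, hi, hs⟩, ht⟩
  · have c1 : ((P.biUnion T).card : ℝ) ≤
        P.card * ((2 * ⌈R * exp (n : ℝ)⌉₊ + 1 : ℝ)) ^ (b - 1) := by
      exact_mod_cast Finset.card_biUnion_le_card_mul P T _ fun i hi => (hT i hi).1
    have c2 : (2 * ⌈R * exp (n : ℝ)⌉₊ + 1 : ℝ) ≤ (2 * R + 3) * exp (n : ℝ) := by
      have := Nat.ceil_lt_add_one (show 0 ≤ R * exp (n : ℝ) by positivity)
      linarith
    have c3 : ((P.biUnion T).card : ℝ) ≤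
        p.eval (n : ℝ) * ((2 * R + 3) * exp (n : ℝ)) ^ (b - 1) :=
      c1.trans (mul_le_mul a1 (pow_le_pow_left₀ (by positivity) c2 _) (by positivity)
        ((Nat.cast_nonneg _).trans a1))
    have c4 : (Q.eval (n : ℝ) * exp (-n)) ^ (d : ℝ) ≤
        Q.eval (n : ℝ) ^ ⌈(d : ℝ)⌉₊ * exp (-n * d) := by
      rw [mul_rpow (by linarith) b2.le, ← exp_mul, ← rpow_natCast]
      exact mul_le_mul_of_nonneg_right (rpow_le_rpow_of_exponent_le b1 (Nat.le_ceil _))
        (exp_pos _).le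
    refine (mul_le_mul c3 c4 (by positivity) ((Nat.cast_nonneg _).trans c3)).trans
      (le_of_eq_of_le ?_ a7)
    simp only [Polynomial.eval_mul, Polynomial.eval_C, Polynomial.eval_pow]
    rw [mul_pow, ← exp_nat_mul, show -(((d : ℝ) - (b - 1 : ℕ)) * n) =
      (b - 1 : ℕ) * n + -n * d by ring, exp_add]
    ring

end Pool.Agent.FS.HyperbolicDim
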