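import Pool.Agent.Lib.MP_5bb885_an.H9Act
import Pool.Agent.FS.HyperbolicDim.Slab

/-!
The classes that are not good lie in a closed set of Hausdorff dimension at most `b - 1`.
The slab cover is the one in the proof of `Fu.ae_good`, stated for every large `n`.
-/

namespace Pool.Agent.FS.HyperbolicDim

open Pool.Agent.Lib.MP_5bb885_an UpperHalfPlane Real Filter Topology MeasureTheory

variable {Γ : Subgroup G}

theorem bad_ball (F : Fu Γ) {b : ℕ} (e : (Fin b → ℝ) ≃ₗ[ℝ] Coh Γ) (R : ℕ) :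
    dimH (closure {t | ‖t‖ ≤ R ∧ t ≠ 0 ∧ ¬Good (e t : Γ → ℝ)}) ≤ (b - 1 : ℕ) := by
  classical
  obtain ⟨r, ψ, hψ, hψ'⟩ := F.ints
  obtain ⟨C, hC⟩ := F.cyc
  choose M hM hM' using fun φ : Coh Γ => F.lip φ.2
  obtain ⟨A, hA⟩ := exists_nat_ge (∑ i, M ⟨_, hψ i⟩)
  set ev : Γ → (Fin b → ℝ) →ₗ[ℝ] ℝ := fun γ =>
    (LinearMap.proj γ).comp ((Coh Γ).subtype.comp e.toLinearMap) with hev
  have e1 : ∀ γ t, ev γ t = (e t : Γ → ℝ) γ := fun _ _ => rfl
  have e2 : ∀ γ, ∀ φ ∈ Coh Γ, φ (Function.invFun ψ (ψ γ)) = φ γ := fun γ φ hφ => by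
    obtain ⟨a, ha⟩ := hψ' φ hφ
    rw [ha, ha, Function.invFun_eq (f := ψ) ⟨γ, rfl⟩]
  set s : (Fin r → ℤ) → ℝ := fun v => sInf {d | ∃ (γ : Γ) (z : ℍ), ψ γ = v ∧ d = dist z ((γ : G) • z)}
    with hs
  set ℓ : (Fin r → ℤ) × (Fin r → ℤ) → (Fin b → ℝ) →ₗ[ℝ] ℝ := fun p =>
    s p.2 • ev (Function.invFun ψ p.1) - s p.1 • ev (Function.invFun ψ p.2) with hℓ
  set x : Fin r → Fin b → ℝ := fun i => e.symm ⟨_, hψ i⟩ with hx
  set M₀ := R * ∑ j, M (e fun j' => if j = j' then 1 else 0) with hM₀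
  have e3 : 0 ≤ M₀ := mul_nonneg R.cast_nonneg (Finset.sum_nonneg fun _ _ => hM _)
  have e4 : ∀ t, ‖t‖ ≤ R → ∀ (γ : Γ) (z : ℍ), (e t : Γ → ℝ) γ ≤ M₀ * dist z ((γ : G) • z) := by
    intro t ht γ z
    rw [← e1, LinearMap.pi_apply_eq_sum_univ, hM₀, Finset.mul_sum, Finset.sum_mul]
    refine Finset.sum_le_sum fun j _ => (le_abs_self _).trans ?_
    rw [smul_eq_mul, abs_mul, mul_assoc]
    exact mul_le_mul ((norm_le_pi_norm t j).trans ht) (hM' _ γ z) (abs_nonneg _) R.cast_nonneg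
  refine dim_le _ (R := R) (B := ∑ i, ‖x i‖) R.cast_nonneg
    (Finset.sum_nonneg fun i _ => norm_nonneg (x i))
    (((2 * (Polynomial.C (A * 3 * C : ℝ) * (.X + 1) ^ 2) + 1) ^ r) ^ 2)
    ((Polynomial.C (7200 * M₀ * C ^ 2) * (.X + 1) ^ 4 + 1) *
        (8 * (Polynomial.C (A * 3 * C : ℝ) * (.X + 1) ^ 2))) ℓ ?_
  filter_upwards [(tendsto_exp_neg_atTop_nhds_zero.comp
    tendsto_natCast_atTop_atTop).eventually_le_const (show (0 : ℝ) < 1 / 2400 by norm_num),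
    eventually_ge_atTop 4] with n h3 h4
  set m := A * 3 * C * (n + 1) ^ 2 with hm
  set w := (7200 * M₀ * C ^ 2 * (n + 1) ^ 4 + 1) * exp (-n) with hw
  set Bx := Fintype.piFinset fun _ : Fin r => Finset.Icc (-m : ℤ) m with hBx
  have h5 : (Bx ×ˢ Bx).card = ((2 * m + 1) ^ r) ^ 2 := by
    simp only [hBx, Finset.card_product, Fintype.card_piFinset, Int.card_Icc, Finset.prod_const,
      Finset.card_univ, Fintype.card_fin, pow_two]
    rw [show ((m : ℤ) + 1 - -m).toNat = 2 * m + 1 by omega]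
  have h7 : {t | ‖t‖ ≤ R ∧ t ≠ 0 ∧ ¬Good (e t : Γ → ℝ)} ⊆
      ⋃ p ∈ (Bx ×ˢ Bx).filter fun p => ∃ i, 1 ≤ 8 * m * |ℓ p (x i)|, {t | ‖t‖ ≤ R ∧ |ℓ p t| ≤ w} := by
    rintro t ⟨k1, k2, k3⟩
    obtain ⟨l, k4⟩ := F.lam (e t).2 fun h => k2 (e.map_eq_zero_iff.1 (Subtype.ext h))
    have k5 := (Coh Γ).smul_mem l⁻¹ (e t).2
    obtain ⟨u, P⟩ := exists_pot k5 k4.norm
    obtain ⟨η, η', k6, k7, φ, k8, k9, k10⟩ := hC _ k5 u P n h4 h3
      fun h => k3 ⟨l, u, _, k4, P, exp_pos _, h⟩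
    set c := l⁻¹ • (e t : Γ → ℝ) with hc
    set L : ℝ := 3 * (C * (n + 1) ^ 2) with hL
    set ρ : ℝ := C * (n + 1) ^ 2 * (1200 * exp (-n)) with hρ
    have key : ∀ η, Sh c L ρ η → (∀ i, |ψ η i| ≤ m) ∧ 1 / 4 ≤ c η ∧ c η ≤ s (ψ η) ∧
        s (ψ η) ≤ c η + ρ ∧ s (ψ η) ≤ L := by
      rintro η ⟨z, a1, a2, a3⟩
      have a4 : c η ∈ lowerBounds {d | ∃ (γ : Γ) (z : ℍ), ψ γ = ψ η ∧ d = dist z ((γ : G) • z)} := by
        rintro _ ⟨γ, z, a4, rfl⟩
        rw [← e2 η c k5, ← a4, e2 γ c k5]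
        exact k4.norm γ z
      have a5 : s (ψ η) ≤ _ := csInf_le ⟨_, a4⟩ ⟨η, z, rfl, rfl⟩
      refine ⟨fun i => ?_, a3, le_csInf ⟨_, η, z, rfl, rfl⟩ a4, a5.trans a1, a5.trans a2⟩
      have a6 := (hM' ⟨_, hψ i⟩ η z).trans (mul_le_mul ((Finset.single_le_sum
        (fun i _ => hM ⟨_, hψ i⟩) (Finset.mem_univ i)).trans hA) a2 dist_nonneg A.cast_nonneg)
      rw [hL, ← mul_assoc, ← mul_assoc] at a6
      rw [hm]
      dsimp only at a6
      exact_mod_cast a6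
    obtain ⟨a1, a2, a3, a4, a5⟩ := key η k6
    obtain ⟨b1, b2, b3, b4, b5⟩ := key η' k7
    have k11 : ∀ t, ℓ (ψ η, ψ η') t = s (ψ η') * (e t : Γ → ℝ) η - s (ψ η) * (e t : Γ → ℝ) η' := by
      intro t
      simp only [hℓ, LinearMap.sub_apply, LinearMap.smul_apply, e1, e2 _ _ (e t).2, smul_eq_mul]
    refine Set.mem_iUnion₂.2 ⟨(ψ η, ψ η'), Finset.mem_filter.2 ⟨Finset.mem_product.2
      ⟨Fintype.mem_piFinset.2 fun i => Finset.mem_Icc.2 (abs_le.1 (a1 i)),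
        Fintype.mem_piFinset.2 fun i => Finset.mem_Icc.2 (abs_le.1 (b1 i))⟩, ?_⟩, k1, ?_⟩
    · simp only [k11, hx, LinearEquiv.apply_symm_apply]
      obtain ⟨i, j, k12⟩ : ∃ i j, ψ η i * ψ η' j - ψ η j * ψ η' i ≠ 0 := by
        by_contra k12
        push Not at k12
        obtain ⟨a, ha⟩ := hψ' φ k8
        obtain ⟨a', ha'⟩ := hψ' c k5
        have : φ η * c η' = φ η' * c η := by
          rw [ha, ha, ha', ha', Finset.sum_mul_sum, Finset.sum_mul_sum]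
          refine Finset.sum_congr rfl fun i _ => Finset.sum_congr rfl fun j _ => ?_
          have : (ψ η i : ℝ) * ψ η' j - ψ η j * ψ η' i = 0 := by exact_mod_cast k12 i j
          linear_combination a i * a' j * this
        rw [k9, zero_mul] at this
        exact mul_ne_zero k10 (by linarith) this.symm
      have k13 : (1 : ℝ) ≤ |(ψ η i : ℝ) * ψ η' j - ψ η j * ψ η' i| := by
        exact_mod_cast Int.one_le_abs k12
      have k14 : ∀ i, |(ψ η' i : ℝ)| ≤ m := fun i => by exact_mod_cast b1 i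
      by_contra k15
      push Not at k15
      have k16 := abs_sub ((s (ψ η') * ψ η i - s (ψ η) * ψ η' i) * ψ η' j)
        ((s (ψ η') * ψ η j - s (ψ η) * ψ η' j) * ψ η' i)
      rw [show (s (ψ η') * ψ η i - s (ψ η) * ψ η' i) * ψ η' j -
        (s (ψ η') * ψ η j - s (ψ η) * ψ η' j) * ψ η' i =
          s (ψ η') * (ψ η i * ψ η' j - ψ η j * ψ η' i) by ring, abs_mul, abs_mul, abs_mul,
        abs_of_nonneg (by linarith)] at k16
      nlinarith [k15 i, k15 j, mul_le_mul_of_nonneg_left (k14 j)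
        (abs_nonneg (s (ψ η') * ψ η i - s (ψ η) * ψ η' i)), mul_le_mul_of_nonneg_left (k14 i)
        (abs_nonneg (s (ψ η') * ψ η j - s (ψ η) * ψ η' j)),
        mul_le_mul_of_nonneg_left k13 (show 0 ≤ s (ψ η') by linarith)]
    · have k12 : ∀ γ, (e t : Γ → ℝ) γ = l * c γ := fun γ => (mul_inv_cancel_left₀ k4.1.ne' _).symm
      have k13 : |s (ψ η') * c η - s (ψ η) * c η'| ≤ L * ρ := by
        have c1 := mul_le_mul b5 (sub_le_iff_le_add'.2 a4) (sub_nonneg.2 a3) (by positivity)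
        have c2 := mul_le_mul a5 (sub_le_iff_le_add'.2 b4) (sub_nonneg.2 b3) (by positivity)
        have c3 := mul_nonneg (show 0 ≤ s (ψ η') by linarith) (sub_nonneg.2 a3)
        have c4 := mul_nonneg (show 0 ≤ s (ψ η) by linarith) (sub_nonneg.2 b3)
        exact abs_le.2 ⟨by linarith, by linarith⟩
      rw [k11, k12, k12, mul_left_comm, mul_left_comm _ l, ← mul_sub, abs_mul, abs_of_pos k4.1]
      refine (mul_le_mul (k4.le (e4 t k1)) k13 (abs_nonneg _) (by positivity)).trans ?_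
      rw [hw, hL, hρ]
      linarith [exp_pos (-n : ℝ)]
  refine ⟨_, w, 8 * m, ?_, by positivity, le_of_eq ?_, ?_, fun p hp => ?_, h7⟩
  · refine (Nat.cast_le.2 (Finset.card_filter_le _ _)).trans (le_of_eq ?_)
    simp only [h5, hm, Polynomial.eval_mul, Polynomial.eval_C, Polynomial.eval_pow,
      Polynomial.eval_add, Polynomial.eval_X, Polynomial.eval_one, Polynomial.eval_ofNat]
    push_cast
    ring
  · simp only [hw, hm, Polynomial.eval_mul, Polynomial.eval_C, Polynomial.eval_pow,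
      Polynomial.eval_add, Polynomial.eval_X, Polynomial.eval_one, Polynomial.eval_ofNat]
    push_cast
    ring
  · simp only [Polynomial.eval_mul, Polynomial.eval_C, Polynomial.eval_pow,
      Polynomial.eval_add, Polynomial.eval_X, Polynomial.eval_one, Polynomial.eval_ofNat]
    positivity
  · obtain ⟨i, hi⟩ := (Finset.mem_filter.1 hp).2
    exact ⟨x i, Finset.single_le_sum (fun i _ => norm_nonneg (x i)) (Finset.mem_univ i), hi⟩

theorem good_off (F : Fu Γ) {b : ℕ} (e : (Fin b → ℝ) ≃ₗ[ℝ] Coh Γ) :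
    ∃ Z : Set (Fin b → ℝ), IsClosed Z ∧ dimH Z ≤ (b - 1 : ℕ) ∧
      ∀ t, t ∉ Z → Good (e t : Γ → ℝ) := by
  refine ⟨{0} ∪ closure {t | t ≠ 0 ∧ ¬Good (e t : Γ → ℝ)}, isClosed_singleton.union isClosed_closure,
    ?_, fun t ht => ?_⟩
  · rw [dimH_union, dimH_singleton]
    refine max_le zero_le ((dimH_mono (t := ⋃ R : ℕ,
      closure {t | ‖t‖ ≤ R ∧ t ≠ 0 ∧ ¬Good (e t : Γ → ℝ)}) fun t ht => ?_).trans ?_)
    · obtain ⟨R, hR⟩ := exists_nat_gt ‖t‖
      refine Set.mem_iUnion.2 ⟨R, closure_mono (fun y hy => ?_)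
        ((isOpen_lt continuous_norm continuous_const).inter_closure ⟨hR, ht⟩)⟩
      exact ⟨le_of_lt hy.1, hy.2⟩
    · rw [dimH_iUnion]
      exact iSup_le (bad_ball F e)
  · by_contra h
    exact ht (Or.inr (subset_closure ⟨fun h0 => ht (Or.inl h0), h⟩))

end Pool.Agent.FS.HyperbolicDim
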